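import Pool.Agent.Y714.KI.Stm

set_option autoImplicit false

/-! Project KI, job DIVB. -/

namespace Pool.Agent.Y369.KI

open Pool.Agent.Y714.KI
open NumberField FractionalIdeal Module Finset
open scoped nonZeroDivisors

theorem divb : S_DIVB := by
  classical
  intro F _ _ W k
  let T : Finset (Ideal (𝓞 F)) :=
    (Ideal.finite_setOfPred_absNorm_le (S := 𝓞 F) ⌊W⌋₊).toFinset.filter (fun v => v ≠ ⊥)
  have hT : ∀ v, v ∈ T ↔ Ideal.absNorm v ≤ ⌊W⌋₊ ∧ v ≠ ⊥ := by
    intro v; simp [T]
  have hQ0 : (k • T.val).prod ≠ ⊥ := by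
    rw [Multiset.prod_nsmul]
    refine pow_ne_zero _ ?_
    intro h0
    rw [Multiset.prod_eq_zero_iff] at h0
    exact ((hT _).1 h0).2 rfl
  refine ⟨(Ideal.absNorm (k • T.val).prod : ℝ) + 1, by positivity, ?_⟩
  intro n hn hW hk
  have hfac : (UniqueFactorizationMonoid.normalizedFactors n).prod = n :=
    Ideal.prod_normalizedFactors_eq_self hn
  have hle : UniqueFactorizationMonoid.normalizedFactors n ≤ k • T.val := by
    rw [Multiset.le_iff_count]
    intro v
    by_cases hv : v ∈ UniqueFactorizationMonoid.normalizedFactors n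
    · have hp : Prime v := UniqueFactorizationMonoid.prime_of_normalized_factor v hv
      have hvp : v.IsPrime := Ideal.isPrime_of_prime hp
      have hv0 : v ≠ ⊥ := hp.ne_zero
      have hnv : n ≤ v := Ideal.le_of_dvd (UniqueFactorizationMonoid.dvd_of_mem_normalizedFactors hv)
      have hvT : v ∈ T := (hT v).2 ⟨Nat.le_floor (hW v hvp hv0 hnv), hv0⟩
      rw [Multiset.count_nsmul, Multiset.count_eq_one_of_mem T.nodup hvT, mul_one]
      by_contra hc
      push Not at hc
      apply hk v hvp hv0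
      apply Ideal.le_of_dvd
      have h1 : Multiset.replicate k v ≤ UniqueFactorizationMonoid.normalizedFactors n :=
        Multiset.le_count_iff_replicate_le.1 hc.le
      have h2 := Multiset.prod_dvd_prod_of_le h1
      rwa [Multiset.prod_replicate, hfac] at h2
    · rw [Multiset.count_eq_zero_of_notMem hv]
      exact Nat.zero_le _
  have hdvd : n ∣ (k • T.val).prod := by
    have h := Multiset.prod_dvd_prod_of_le hle
    rwa [hfac] at h
  have h3 : Ideal.absNorm n ∣ Ideal.absNorm (k • T.val).prod := map_dvd _ hdvd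
  have h4 : Ideal.absNorm (k • T.val).prod ≠ 0 := by
    rw [Ne, Ideal.absNorm_eq_zero_iff]; exact hQ0
  have h5 : Ideal.absNorm n ≤ Ideal.absNorm (k • T.val).prod :=
    Nat.le_of_dvd (Nat.pos_of_ne_zero h4) h3
  have h6 : ((Ideal.absNorm n : ℕ) : ℝ) ≤ ((Ideal.absNorm (k • T.val).prod : ℕ) : ℝ) := by
    exact_mod_cast h5
  linarith

end Pool.Agent.Y369.KI
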